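import Mathlib
import Pool.Agent.H.MP_38b438_an.D

set_option autoImplicit false

namespace Pool.Agent.Results.MP_38b438_an.Q1

open MeasureTheory Set Pool.Agent.H38b4

noncomputable section

/-- `x ↦ ∑_{k odd, k ≤ n} (a k cos (2 π k x) + b k sin (2 π k x))` on `ℝ / ℤ` -/
def trig (n : ℕ) (a b : ℕ → ℝ) (x : UnitAddCircle) : ℝ :=
  ∑ k ∈ (Finset.range (n + 1)).filter Odd,
    (a k * (fourier (k : ℤ) x).re + b k * (fourier (k : ℤ) x).im)

/-- Borel probability measures invariant under the doubling map -/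
def IsInvariant (μ : Measure UnitAddCircle) : Prop :=
  IsProbabilityMeasure μ ∧ MeasurePreserving (fun x : UnitAddCircle => (2 : ℕ) • x) μ μ

/-- maximizing measures for `f` -/
def IsMaximizing (f : UnitAddCircle → ℝ) (μ : Measure UnitAddCircle) : Prop :=
  IsInvariant μ ∧ ∀ ν, IsInvariant ν → ∫ x, f x ∂ν ≤ ∫ x, f x ∂μ

/-- `X + 1/2` -/
def shiftHalf (X : Set UnitAddCircle) : Set UnitAddCircle :=
  (fun x => x + ((1 / 2 : ℝ) : UnitAddCircle)) '' X

/-- finite unions of closed non-degenerate arcs with `X ∪ (X + 1/2) = 𝕋`, `X ∩ (X + 1/2) = ∂X` -/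
def IsFlower (X : Set UnitAddCircle) : Prop :=
  (∃ s : Finset (ℝ × ℝ), (∀ p ∈ s, p.1 < p.2) ∧
      X = ⋃ p ∈ s, (fun t : ℝ => (t : UnitAddCircle)) '' Icc p.1 p.2) ∧
    X ∪ shiftHalf X = univ ∧ X ∩ shiftHalf X = frontier X

/-- the number of connected components of `X` -/
def petals (X : Set UnitAddCircle) : ℕ∞ := (connectedComponentIn X '' X).encard

def Cx (x : UnitAddCircle) : ℝ := (fourier 1 x).re

lemma re_coe (k : ℤ) (t : ℝ) : (fourier k (t : UnitAddCircle)).re = Real.cos (2 * Real.pi * k * t) := by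
  rw [fourier_coe_apply, ← Complex.exp_ofReal_mul_I_re]
  congr 2
  push_cast
  ring

lemma Cx_coe (t : ℝ) : Cx (t : UnitAddCircle) = Real.cos (2 * Real.pi * t) := by
  unfold Cx; rw [re_coe]; simp

lemma Cx_abs (x : UnitAddCircle) : |Cx x| ≤ 1 := by
  induction x using QuotientAddGroup.induction_on with
  | H t => rw [Cx_coe]; exact Real.abs_cos_le_one _

lemma Cx_two (x : UnitAddCircle) : Cx ((2 : ℕ) • x) = 2 * Cx x ^ 2 - 1 := by
  induction x using QuotientAddGroup.induction_on with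
  | H t =>
    rw [← AddCircle.coe_nsmul, Cx_coe, Cx_coe, ← Real.cos_two_mul]
    congr 1
    rw [nsmul_eq_mul]; push_cast; ring

lemma Cx_three (x : UnitAddCircle) : (fourier 3 x).re = T3 (Cx x) := by
  induction x using QuotientAddGroup.induction_on with
  | H t =>
    rw [re_coe, Cx_coe, T3, ← Real.cos_three_mul]
    congr 1
    push_cast; ring

lemma Cx_cont : Continuous Cx := by
  unfold Cx
  exact Complex.continuous_re.comp (fourier 1).continuous

def aa (k : ℕ) : ℝ := if k = 1 then 1 else -lam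

lemma trig_eq (x : UnitAddCircle) : trig 3 aa (fun _ => 0) x = Ft (Cx x) + (1 - lam) := by
  have e : (Finset.range (3 + 1)).filter Odd = {1, 3} := by decide
  unfold trig
  rw [e, Finset.sum_pair (by norm_num)]
  have h3 := Cx_three x
  simp only [aa, if_true, Nat.cast_one, Nat.cast_ofNat, zero_mul, add_zero]
  rw [if_neg (by norm_num), h3]
  unfold Ft Cx
  ring

lemma Ft_cont : Continuous fun x => Ft (Cx x) := by
  have := Cx_cont
  unfold Ft T3
  fun_prop

lemma dbl_meas : Measurable fun x : UnitAddCircle => (2 : ℕ) • x :=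
  (continuous_nsmul 2).measurable

lemma upper (ν : Measure UnitAddCircle) (h : IsInvariant ν) : ∫ x, Ft (Cx x) ∂ν ≤ 0 := by
  obtain ⟨hp, hm⟩ := h
  have m1 : Measurable fun x => G (Cx x) := G_meas.comp Cx_cont.measurable
  have i1 : Integrable (fun x => G (Cx x)) ν :=
    Integrable.of_bound m1.aestronglyMeasurable 100 (ae_of_all _ fun x => G_bd _ (Cx_abs x))
  have i2 : Integrable (fun x => G (Cx ((2 : ℕ) • x))) ν := (hm.integrable_comp m1.aestronglyMeasurable).2 i1
  have i3 : Integrable (fun x => Ft (Cx x)) ν :=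
    Ft_cont.integrable_of_hasCompactSupport (HasCompactSupport.of_compactSpace _)
  have e : ∫ x, G (Cx ((2 : ℕ) • x)) ∂ν = ∫ x, G (Cx x) ∂ν := by
    have := integral_map (μ := ν) dbl_meas.aemeasurable (f := fun x => G (Cx x))
      m1.aestronglyMeasurable
    rw [hm.map_eq] at this
    exact this.symm
  have h1 : ∫ x, Ft (Cx x) ∂ν ≤ ∫ x, (G (Cx ((2 : ℕ) • x)) - G (Cx x)) ∂ν := by
    refine integral_mono i3 (i2.sub i1) fun x => ?_
    have := sub_action (Cx x) (Cx_abs x)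
    simp only [Cx_two]
    linarith
  rw [integral_sub i2 i1, e, sub_self] at h1
  exact h1

def P (k : ℕ) : UnitAddCircle := (((k : ℝ) / 33 : ℝ) : UnitAddCircle)

def SS : Finset ℕ := {0, 1, 2, 4, 8, 16, 17, 25, 29, 31, 32}

def mu : Measure UnitAddCircle := (11 : ENNReal)⁻¹ • ∑ k ∈ SS, Measure.dirac (P k)

lemma P_two (k : ℕ) : (2 : ℕ) • P k = P (2 * k) := by
  unfold P
  rw [← AddCircle.coe_nsmul]
  congr 1
  rw [nsmul_eq_mul]; push_cast; ring

lemma P_add (k : ℕ) : P (k + 33) = P k := by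
  unfold P
  rw [← AddCircle.coe_add_period 1 ((k : ℝ) / 33)]
  congr 1
  push_cast; ring

lemma sum_SS {M : Type} [AddCommMonoid M] (φ : ℕ → M) : ∑ k ∈ SS, φ k =
    φ 0 + φ 1 + φ 2 + φ 4 + φ 8 + φ 16 + φ 17 + φ 25 + φ 29 + φ 31 + φ 32 := by
  unfold SS
  simp [Finset.sum_insert, add_assoc]

lemma mu_inv : IsInvariant mu := by
  constructor
  · constructor
    unfold mu
    rw [Measure.smul_apply, Measure.finset_sum_apply, sum_SS]
    simp only [measure_univ, smul_eq_mul]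
    norm_num
    exact ENNReal.inv_mul_cancel (by norm_num) (by norm_num)
  · refine ⟨dbl_meas, ?_⟩
    unfold mu
    rw [Measure.map_smul, Measure.map_finset_sum dbl_meas.aemeasurable]
    congr 1
    simp only [Measure.map_dirac' dbl_meas, P_two]
    rw [sum_SS, sum_SS]
    have h1 : P (2 * 17) = P 1 := P_add 1
    have h2 : P (2 * 25) = P 17 := P_add 17
    have h3 : P (2 * 29) = P 25 := P_add 25
    have h4 : P (2 * 31) = P 29 := P_add 29
    have h5 : P (2 * 32) = P 31 := P_add 31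
    rw [h1, h2, h3, h4, h5]
    simp only [Nat.reduceMul]
    abel

lemma Cx_P (k : ℕ) : Cx (P k) = cc k := by unfold P cc; rw [Cx_coe]

lemma mu_int : ∫ x, Ft (Cx x) ∂mu = 0 := by
  unfold mu
  rw [integral_smul_measure, integral_finsetSum_measure (fun k _ => integrable_dirac (by simp))]
  simp only [integral_dirac, Cx_P]
  rw [sum_SS]
  have h0 : cc 0 = 1 := by simp [cc]
  have h1 : cc 17 = c4 := cc_sym 16 (by norm_num)
  have h2 : cc 25 = c3 := cc_sym 8 (by norm_num)
  have h3 : cc 29 = c2 := cc_sym 4 (by norm_num)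
  have h4 : cc 31 = c1 := cc_sym 2 (by norm_num)
  have h5 : cc 32 = c0 := cc_sym 1 (by norm_num)
  have h6 : Ft 1 = 0 := by unfold Ft T3; ring
  have h7 : Ft (cc 1) + Ft (cc 2) + Ft (cc 4) + Ft (cc 8) + Ft (cc 16) = 0 := by
    have := closing
    rw [gd4, gd3, gd2, gd1] at this
    change Ft c0 + Ft c1 + Ft c2 + Ft c3 + Ft c4 = 0
    linarith
  have h8 : Ft c0 + Ft c1 + Ft c2 + Ft c3 + Ft c4 = 0 := h7
  rw [h0, h1, h2, h3, h4, h5, h6]
  have : 0 + Ft (cc 1) + Ft (cc 2) + Ft (cc 4) + Ft (cc 8) + Ft (cc 16) + Ft c4 + Ft c3 + Ft c2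
      + Ft c1 + Ft c0 = 0 := by linarith
  rw [this, smul_zero]

lemma int_trig (ν : Measure UnitAddCircle) (h : IsInvariant ν) :
    ∫ x, trig 3 aa (fun _ => 0) x ∂ν = ∫ x, Ft (Cx x) ∂ν + (1 - lam) := by
  obtain ⟨hp, -⟩ := h
  have i3 : Integrable (fun x => Ft (Cx x)) ν :=
    Ft_cont.integrable_of_hasCompactSupport (HasCompactSupport.of_compactSpace _)
  simp only [trig_eq]
  rw [integral_add i3 (integrable_const _)]
  simp

lemma mu_max : IsMaximizing (trig 3 aa fun _ => 0) mu := by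
  refine ⟨mu_inv, fun ν hν => ?_⟩
  rw [int_trig ν hν, int_trig mu mu_inv, mu_int]
  linarith [upper ν hν]

lemma P_supp (k : ℕ) (hk : k ∈ SS) : P k ∈ mu.support := by
  rw [Measure.mem_support_iff_forall]
  intro U hU
  unfold mu
  rw [Measure.smul_apply, Measure.finset_sum_apply, smul_eq_mul]
  refine ENNReal.mul_pos (by norm_num) (ne_of_gt ?_)
  refine lt_of_lt_of_le ?_ (Finset.single_le_sum (f := fun k => Measure.dirac (P k) U)
    (fun _ _ => zero_le) hk)
  rw [Measure.dirac_apply_of_mem (mem_of_mem_nhds hU)]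
  exact one_pos

lemma arc_open (a b : ℝ) : IsOpen ((fun t : ℝ => (t : UnitAddCircle)) '' Ioo a b) :=
  QuotientAddGroup.isOpenMap_coe _ isOpen_Ioo

lemma gap {X : Set UnitAddCircle} (hX : X ∩ shiftHalf X = frontier X) {w lo hi : ℝ}
    (hw : (w : UnitAddCircle) ∈ shiftHalf X) (h1 : lo < w) (h2 : w < hi) :
    ∃ v : ℝ, lo < v ∧ v < hi ∧ (v : UnitAddCircle) ∉ X := by
  by_cases h : (w : UnitAddCircle) ∈ X
  · have h3 : (w : UnitAddCircle) ∈ frontier X := hX ▸ ⟨h, hw⟩
    rw [frontier_eq_closure_inter_closure] at h3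
    obtain ⟨y, ⟨v, hv, rfl⟩, hy⟩ := mem_closure_iff.1 h3.2 _ (arc_open lo hi) ⟨w, ⟨h1, h2⟩, rfl⟩
    exact ⟨v, hv.1, hv.2, hy⟩
  · exact ⟨w, h1, h2, h⟩

lemma sep {X : Set UnitAddCircle} {u u' v v' : ℝ} (hu : (u : UnitAddCircle) ∈ X)
    (hu' : (u' : UnitAddCircle) ∈ X) (hv : (v : UnitAddCircle) ∉ X) (hv' : (v' : UnitAddCircle) ∉ X)
    (h1 : v' - 1 < u) (h2 : u < v) (h3 : v < u') (h4 : u' < v') :
    connectedComponentIn X (u : UnitAddCircle) ≠ connectedComponentIn X (u' : UnitAddCircle) := by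
  intro h
  have hK : IsPreconnected (connectedComponentIn X (u : UnitAddCircle)) :=
    isPreconnected_connectedComponentIn
  have hsub : connectedComponentIn X (u : UnitAddCircle) ⊆
      (fun t : ℝ => (t : UnitAddCircle)) '' Ioo (v' - 1) v ∪
        (fun t : ℝ => (t : UnitAddCircle)) '' Ioo v v' := by
    intro y hy
    have hyX : y ∈ X := connectedComponentIn_subset _ _ hy
    obtain ⟨⟨t, ht⟩, rfl⟩ := (AddCircle.equivIco 1 (v' - 1)).symm.surjective y
    change (t : UnitAddCircle) ∈ X at hyX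
    change (t : UnitAddCircle) ∈ _
    have a1 : t ≠ v' - 1 := by
      rintro rfl
      rw [← AddCircle.coe_add_period 1 (v' - 1), sub_add_cancel] at hyX
      exact hv' hyX
    have a2 : t ≠ v := by rintro rfl; exact hv hyX
    rcases lt_or_gt_of_ne a2 with a | a
    · exact Or.inl ⟨t, ⟨lt_of_le_of_ne ht.1 a1.symm, a⟩, rfl⟩
    · exact Or.inr ⟨t, ⟨a, by linarith [ht.2]⟩, rfl⟩
  obtain ⟨y, -, ⟨s, hs, rfl⟩, ⟨t, ht, hst⟩⟩ := hK _ _ (arc_open _ _) (arc_open _ _) hsub
    ⟨u, mem_connectedComponentIn hu, u, ⟨h1, h2⟩, rfl⟩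
    ⟨u', h ▸ mem_connectedComponentIn hu', u', ⟨h3, h4⟩, rfl⟩
  have := (AddCircle.coe_eq_coe_iff_of_mem_Ico (p := 1) (a := v' - 1)
    ⟨by linarith [ht.1], by linarith [ht.2]⟩ ⟨hs.1.le, by linarith [hs.2]⟩).1 hst
  linarith [ht.1, hs.2]

lemma half_mem {X : Set UnitAddCircle} {k : ℕ} (h : P k ∈ X) (w : ℝ) (j : ℕ)
    (hw : w + j = k / 33 + 1 / 2) (hj : j ≤ 1) : (w : UnitAddCircle) ∈ shiftHalf X := by
  refine ⟨P k, h, ?_⟩
  unfold P
  simp only
  rw [← AddCircle.coe_add, ← hw]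
  interval_cases j
  · simp
  · rw [Nat.cast_one, AddCircle.coe_add_period]

/-- Q1 fails for `n = 3`. -/
theorem result : ¬ ∀ n : ℕ, Odd n → ∀ a b : ℕ → ℝ,
    (∃ k, Odd k ∧ k ≤ n ∧ (a k ≠ 0 ∨ b k ≠ 0)) →
    ∀ μ : Measure UnitAddCircle, IsMaximizing (trig n a b) μ →
      ∃ X : Set UnitAddCircle, IsFlower X ∧ petals X ≤ n ∧ μ.support ⊆ X := by
  intro h
  obtain ⟨X, ⟨-, -, hX⟩, hp, hs⟩ := h 3 (by decide) aa (fun _ => 0)
    ⟨1, odd_one, by norm_num, Or.inl (by simp [aa])⟩ mu mu_max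
  have m : ∀ k ∈ SS, P k ∈ X := fun k hk => hs (P_supp k hk)
  have m0 := m 0 (by decide)
  have m1 := m 1 (by decide)
  have m16 := m 16 (by decide)
  have m17 := m 17 (by decide)
  have m25 := m 25 (by decide)
  obtain ⟨v1, a1, b1, n1⟩ := gap hX (lo := (0 : ℕ) / 33) (hi := (1 : ℕ) / 33)
    (half_mem m17 (1 / 66) 1 (by norm_num) le_rfl) (by norm_num) (by norm_num)
  obtain ⟨v2, a2, b2, n2⟩ := gap hX (lo := (1 : ℕ) / 33) (hi := (16 : ℕ) / 33)
    (half_mem m25 (17 / 66) 1 (by norm_num) le_rfl) (by norm_num) (by norm_num)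
  obtain ⟨v3, a3, b3, n3⟩ := gap hX (lo := (16 : ℕ) / 33) (hi := (17 : ℕ) / 33)
    (half_mem m0 (1 / 2) 0 (by norm_num) zero_le_one) (by norm_num) (by norm_num)
  obtain ⟨v4, a4, b4, n4⟩ := gap hX (lo := (17 : ℕ) / 33) (hi := 1)
    (half_mem m1 (35 / 66) 0 (by norm_num) zero_le_one) (by norm_num) (by norm_num)
  push_cast at a1 b1 a2 b2 a3 b3 a4
  have s : ∀ {i j : ℕ} {v : ℝ}, P i ∈ X → P j ∈ X → (v : UnitAddCircle) ∉ X → (i : ℝ) / 33 < v →
      v < (j : ℝ) / 33 → (j : ℝ) ≤ 17 →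
      connectedComponentIn X (P i) ≠ connectedComponentIn X (P j) := by
    intro i j v hi hj hv c1 c2 c3
    have : (0 : ℝ) ≤ i := Nat.cast_nonneg i
    exact sep hi hj hv n4 (by linarith) c1 c2 (by linarith)
  have d01 := s m0 m1 n1 (by push_cast; linarith) (by push_cast; linarith) (by norm_num)
  have d02 := s m0 m16 n1 (by push_cast; linarith) (by push_cast; linarith) (by norm_num)
  have d03 := s m0 m17 n1 (by push_cast; linarith) (by push_cast; linarith) (by norm_num)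
  have d12 := s m1 m16 n2 (by push_cast; linarith) (by push_cast; linarith) (by norm_num)
  have d13 := s m1 m17 n2 (by push_cast; linarith) (by push_cast; linarith) (by norm_num)
  have d23 := s m16 m17 n3 (by push_cast; linarith) (by push_cast; linarith) (by norm_num)
  have hsub : ({connectedComponentIn X (P 0), connectedComponentIn X (P 1),
      connectedComponentIn X (P 16), connectedComponentIn X (P 17)} : Set (Set UnitAddCircle)) ⊆
      connectedComponentIn X '' X := by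
    rintro K (rfl | rfl | rfl | rfl)
    exacts [⟨_, m0, rfl⟩, ⟨_, m1, rfl⟩, ⟨_, m16, rfl⟩, ⟨_, m17, rfl⟩]
  have h4 := (encard_le_encard hsub).trans hp
  rw [encard_insert_of_notMem (by simp [d01, d02, d03]),
    encard_insert_of_notMem (by simp [d12, d13]), encard_pair d23] at h4
  exact absurd h4 (by decide)

end

end Pool.Agent.Results.MP_38b438_an.Q1
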